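import Pool.Agent.H837.Conj.Main

/-!
# The Bloch–Beilinson conjecture over the complex numbers and over the algebraic numbers: the
# absolute kernel of the Abel–Jacobi map

Let `𝒱` be the class of all smooth projective complex varieties and `𝒱₀` that of all smooth
projective varieties over a countable algebraically closed subfield `k₀` of the complex numbers, for
example the field of algebraic numbers; `C`, `C₀` are the Chow groups (rational coefficients), `W`, `W₀` the
cohomology, `N`, `N₀` the kernels of the Abel–Jacobi maps (those of the complex points, for varieties
over `k₀`). An automorphism `σ` of the complex numbers over `k₀` maps a cycle `x` on `X` to a cycle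
`x^σ` on the conjugate variety `X^σ`. The Abel–Jacobi invariants of `x` and of `x^σ` have nothing to
do with each other a priori. Let `N' ⊆ N` be the **absolute kernel**, which consists of the
homologically trivial `x` such that the Abel–Jacobi invariants of all the conjugates `x^σ` are zero.
`IsBBAJ W N F` says that `F` is a Bloch–Beilinson filtration: conditions 1 to 4 of the problem, with
`F^2 = N`; `BBHolds W N` says that there is such a filtration, and that numerical and homological
equivalence coincide.

**Theorem.** 1. Numerical and homological equivalence coincide and there is a Bloch–Beilinson
filtration with `F^2` the absolute kernel for the complex varieties, if and only if numerical and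
homological equivalence coincide and there is a Bloch–Beilinson filtration (with `F^2 = ker(AJ)`) for
the varieties over `k₀`.

2. Numerical and homological equivalence coincide and there is a Bloch–Beilinson filtration with
`F^2 = ker(AJ)` for the complex varieties, if and only if the same is true for the varieties over
`k₀`, and `N = N'`: the kernels of the Abel–Jacobi maps of the complex varieties are stable under the
automorphisms of the complex numbers over `k₀`.

What is used of geometry is the hard Lefschetz theorem, the comparison of the cohomology of
conjugate varieties, and what is contained in `CanSpreadAbsolute` (and in `IsSpread`): resolution of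
singularities, the theorems of Deligne on the Leray spectral sequence, on weights and on the
semisimplicity of the monodromy, the exactness (up to isogeny) of the functor from Hodge structures
to intermediate Jacobians, and the theorem of Baire.

The idea of the proof. 1. Let `F` be the filtration over `k₀`, `δ` a degree operator of `X`, and `x`
a class in the absolute kernel with `δ x = (2j - 1) x`. The normal function of a spread `y` of `x` is
zero at all points of the base which are conjugate to the point of `X`, so its topological invariant
is zero by Baire: the class of `y` lies in the step two of the Leray filtration. So a product of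
operators `ε - (2j - a)`, `a ≥ 2`, where `ε` extends `δ`, leads to homologically trivial cycles,
the operators `ε - (2j - 1 - a)`, `a ≥ 1`, lead to the kernel of the Abel–Jacobi map of the total
space of the spread, that is, to `F^2`, and the operators `ε - (2j - r - a)`, `r ≥ 2`, lead to
`F^(j+1) = 0`; their factors at `x` are not zero, so `x = 0`. In the same way, the eigenvalues of `δ`
on the homologically trivial classes in `CH^j(X)` are less than `2j`, and one gets Chow–Künneth
decompositions which define a filtration with `F^2 = N'`. 2. A Bloch–Beilinson filtration `F` over
`K` is given by Chow–Künneth decompositions, so there is only one; the filtration `x ↦ x^σ ∈ F` is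
another one, with the kernel `x^σ ∈ N`.
-/

open Pool.Agent.H914 Pool.Agent.R903 Pool.Agent.T6.H15.BB Pool.Agent.H837.AJ
open Pool.Agent.H837.Conj

universe u v w u' v' w'

namespace Pool.Agent.Results.MP_08891c_ag.AbsoluteKernel

theorem result {k₀ : Type u} [Field k₀] {𝒱₀ : VarClass k₀} {C₀ : ChowTheory.{u, v} 𝒱₀}
    {W₀ : WeilTheory.{u, v, w} C₀} {N₀ : Kernels C₀} {K : Type u'} [Field K] {𝒱 : VarClass K}
    {C : ChowTheory.{u', v'} 𝒱} {W : WeilTheory.{u', v', w'} C} {N N' : Kernels C}
    (hN : IsAJKernel W N) (hL : ∀ X, HardLefschetz (ofVariety W N X) X.dim)
    {G : BaseExtension C C → Prop} (hG : AreConjugations W N G) (hN' : IsAbsolute G N N')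
    (hS : CanSpreadAbsolute W₀ N₀ W N N') (E : BaseExtension C₀ C)
    (hE : IsExtension W₀ N₀ W N E) (hE' : IsExtension W₀ N₀ W N' E) :
    (BBHolds W N' ↔ BBHolds W₀ N₀) ∧
      (BBHolds W N ↔ BBHolds W₀ N₀ ∧ N = N') :=
  main hN hL hG hN' hS hE hE'

end Pool.Agent.Results.MP_08891c_ag.AbsoluteKernel
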