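import Pool.Agent.H836.CayMain

/-!
# The Cayley–Hamilton theorem for Kimura finite-dimensional motives

Let `X` be a variety of dimension `d` and `f ∈ CH^d(X × X)`; let `P_j` be the characteristic
polynomial of `f` on `H^j(X)`, and `P = ∏_j P_j` the characteristic polynomial of `f` on `H(X)`. If
a Bloch–Beilinson filtration exists then `P_j(f)` acts as zero on `gr^(2i - j) CH^i(X)` by the
condition 4, and so `P(f_*) = 0` on `CH^i(X)`, by the conditions 1 and 2.

**Theorem.** Let `M = (X, ω)` be a finite-dimensional motive in the sense of Kimura (for instance,
`M = h(X)` for an abelian variety or a product of curves), `f` an endomorphism of `M` (of any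
degree), and `P` the characteristic polynomial of `f` on the cohomology `H(M)`. Then `P` has rational
coefficients, and `P(f) = 0` in the ring of the endomorphisms of `M`.

So `P(f_*) = 0` on `CH(X)` (and on `CH(Y × X)`, for all `Y`) if `h(X)` is finite-dimensional. It was
known that `P(f)` is nilpotent (Kimura). In particular, `f^b = 0` with `b = dim H(X)` if `f` is
homologically trivial; and if `P = Q R` with coprime `Q` and `R`, then
`CH^i(X) = ker Q(f_*) ⊕ ker R(f_*)`. For instance, if the polynomials `P_j` are pairwise coprime,
then `CH^i(X) = ⨁_j ker P_j(f_*)`; this is the splitting of the Bloch–Beilinson filtration which is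
given by `f`. (For an abelian variety and the multiplication by `n`, this is Beauville's
decomposition.)

The idea: let `M = M_+ ⊕ M_-` be the decomposition into an evenly and an oddly finite-dimensional
motive. If `f` preserves the decomposition, one contracts the vanishing exterior power of `M_+` and
the vanishing symmetric power of `M_-` with powers of `f`; Newton's identities give the
characteristic polynomials. In general, one uses this for the endomorphisms
`e f e + t e f o f e + t² e f o f o f e + ⋯` of `M_+` (where `e` and `o` are the projectors to `M_+`
and `M_-`) and for the similar ones of `M_-`; they have the same characteristic polynomials as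
`e f e` and `o f o`, because `e f o` and `o f e` are homologically trivial. The identities for all
`t` give identities for the sums of the words with given numbers of the letters `e f` and `o f`, and
these imply the theorem.
-/

open CategoryTheory CategoryTheory.Limits AlgebraicGeometry
open Pool.Agent.H914 Pool.Agent.H914.VarClass Pool.Agent.H914.VarClass.Obj
open Pool.Agent.R903 Pool.Agent.H836

universe u v w

namespace Pool.Agent.Results.MP_08891c_ag.CayleyHamilton

/-- **The Cayley–Hamilton theorem.** Let `(X, ω)` be a Kimura finite-dimensional motive and `f` an
endomorphism of it. The characteristic polynomial `P` of `f` on the cohomology of `(X, ω)` has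
rational coefficients, and `P(f) = 0`. -/
theorem result {k : Type u} [Field k] {𝒱 : VarClass k} {C : ChowTheory.{u, v} 𝒱}
    (hP : C.Polarized) (W : WeilTheory.{u, v, w} C) {X : 𝒱.Obj} {ω : C.CH (X.prod X)}
    (hX : C.KimuraFinite ω) (f : C.CH (X.prod X)) (hf : C.comp ω f = f) (hf' : C.comp f ω = f) :
    ∃ P : Polynomial ℚ, IsCharpoly P (W.act f) (motCoh W ω) ∧ corrEval C P ω f = 0 :=
  cayleyHamilton' hP W hX f hf hf'

end Pool.Agent.Results.MP_08891c_ag.CayleyHamilton
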