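import Pool.Agent.H837.Const.Final

/-!
# The Bloch–Beilinson filtration for complex varieties which are defined over the algebraic numbers

Let `𝒱₀` be the class of all smooth projective varieties over an algebraically closed field `k₀`,
for example the field of algebraic numbers, and `𝒱` the class of all smooth projective varieties over
an algebraically closed extension `K` of `k₀`, for example the field of complex numbers; `C₀`, `C`
are the Chow groups (rational coefficients), `W₀`, `W` the cohomology, `E` is the extension of the
base field (`X ↦ X ⊗ K`), and `N X j` is the kernel of the Abel–Jacobi map on the homologically
trivial classes in `CH^j(X)`, for the varieties `X` over `K`. We consider the varieties over `K`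
which are defined over `k₀`, that is, the varieties `X ⊗ K`, but all cycles over `K` on these
varieties and on their products.

**Theorem.** The following are equivalent:

1. numerical and homological equivalence coincide for the varieties `X ⊗ K`, and there is a
   Bloch–Beilinson filtration for these varieties (conditions 1 to 4 of the problem, in particular
   `F^2` is the kernel of the Abel–Jacobi map, for all cycles over `K`);
2. the same is true for the varieties over `k₀`; here `F^2` consists of the classes on `X` over `k₀`
   whose Abel–Jacobi invariant on `X ⊗ K` is zero.

In particular, if numerical and homological equivalence coincide over `k₀`, and if the Abel–Jacobi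
maps are injective on the homologically trivial cycles which are defined over `k₀` (for the
algebraic numbers this is a conjecture of Beilinson and Bloch), then there is a Bloch–Beilinson
filtration for the varieties over `K` which are defined over `k₀`.

So for these varieties the conjecture for all complex cycles, including the equality of `F^2` and of
the kernel of the Abel–Jacobi map, is a statement on cycles over the algebraic numbers. The
condition on normal functions which appears for arbitrary complex varieties is proved here for
constant families.

What is used of geometry is contained in the definitions `IsExtension`, `HasSpreads` and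
`IsAJKernel`: the functoriality of the Chow groups and of the cohomology under extension of the base
field, the spreading out of cycles and the localization sequence, and the formal properties of the
Abel–Jacobi maps (functoriality, and injectivity for divisors). The hard Lefschetz theorem is used
for the varieties over `k₀`.

The idea of the proof. A class `x` on `X ⊗ K` is the restriction of a class `y` on `T × X` to the
fibre over a generic point of `T`, that is, `x = y_* τ` with the zero-cycle `τ` given by this point.
By the conjectures over `k₀` there are Chow–Künneth decompositions of `X` and `T × X` over `k₀`.
If `x` is in the part of weight `b` then we may suppose that `y` is in the part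
`⨁ H^a(T) ⊗ H^b(X)`; for homologically trivial `x` and `b ≥ 2j` there is then no room for `y`: it
lies in all the steps of the filtration over `k₀`. Applied to correspondences over `K`, this gives
the filtration and its properties 1, 3 and 4. The main point is `F^2`. Let `b = 2j - 1`, and suppose
that the Abel–Jacobi invariant of `x` is zero. The class of `y` gives a map `φ` from `H^(2d-1)(T)` to
`H^(2j-1)(X)`. Since homological motives over `k₀` are semisimple there is an algebraic generalized
inverse of `φ`, and it gives a correspondence `ψ` over `k₀` from `X` to `T` which maps `x` to a
divisor class on `T ⊗ K` and which is injective on the image of `φ`. The Abel–Jacobi invariant of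
`ψ_* x` is zero, so `ψ_* x = 0`; hence the divisor class `ψ_* y` on `T × T` is vertical, and
`ψ_* φ = 0`. So `φ = 0`, and `y` is homologically trivial. Then its Abel–Jacobi invariant is constant
along `T`, so that `y` is, up to the constant part, in the kernel of the Abel–Jacobi map of `T × X`,
which is the second step of the filtration over `k₀`; from there one continues as before.
-/

open Pool.Agent.H914 Pool.Agent.R903 Pool.Agent.T6.H15.BB Pool.Agent.H837.Const

universe u v w u' v' w'

namespace Pool.Agent.Results.MP_08891c_ag.DefinedOverSubfield

theorem result {k₀ : Type u} [Field k₀] {𝒱₀ : VarClass k₀} {C₀ : ChowTheory.{u, v} 𝒱₀}
    {W₀ : WeilTheory.{u, v, w} C₀} {K : Type u'} [Field K] {𝒱 : VarClass K}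
    {C : ChowTheory.{u', v'} 𝒱} {W : WeilTheory.{u', v', w'} C} {N : Kernels C}
    {E : BaseExtension C₀ C} (hE : IsExtension W₀ W E) (hS : HasSpreads E)
    (hN : IsAJKernel W N) (hL : ∀ X, HardLefschetz W₀ X) :
    (((∀ X, HomEqNum W (E.obj X)) ∧ ∃ F, IsBBAJ W N E.obj F) ↔
      (∀ X, HomEqNum W₀ X) ∧ ∃ F₀, IsBBAJ W₀ (E.restrict N) id F₀) ∧
    ((∀ X, HomEqNum W₀ X) → (∀ X j x, MemSub (E.restrict N X j) x → x = 0) →
      ∃ F, IsBBAJ W N E.obj F) :=
  main hE hS hN hL

end Pool.Agent.Results.MP_08891c_ag.DefinedOverSubfield
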