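import Pool.Agent.H837.AJ.Final

/-!
# The Bloch–Beilinson conjecture over the complex numbers, over the algebraic numbers, and normal
# functions

Let `𝒱` be the class of all smooth projective complex varieties and `𝒱₀` that of all smooth
projective varieties over an algebraically closed subfield `k₀` of the complex numbers, for example
the field of algebraic numbers; `C`, `C₀` are the Chow groups (rational coefficients), `W`, `W₀` the
cohomology, `N`, `N₀` the kernels of the Abel–Jacobi maps (those of the complex points, for varieties
over `k₀`). `IsBBAJ W N F` says that `F` is a Bloch–Beilinson filtration: conditions 1 to 4 of the
problem, in particular `F^2 = ker(AJ)`. `HomEqNum` says that numerical and homological equivalence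
coincide.

**Theorem.** Numerical and homological equivalence coincide and there is a Bloch–Beilinson filtration
for the complex varieties, if and only if

1. numerical and homological equivalence coincide and there is a Bloch–Beilinson filtration for the
   varieties over `k₀`, and
2. if the Abel–Jacobi invariant of a homologically trivial class `x` on a complex variety `X` is
   zero, then the normal function of each spread of `x` over `k₀` has trivial topological invariant
   (`NormalFunctionCondition`).

In 2, `X` is the generic fibre, over the complex numbers, of a morphism `Y → B` of varieties over
`k₀`, and `x` is the restriction of a class `y` on `Y`. The normal function attached to `y` is zero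
at the very general point of `B` which corresponds to `X`. The condition says that the class of `y`
in `H^(2j)(Y)` lies in the step two of the Leray filtration, up to classes which come from proper
closed subsets of `B`. It is a statement on one fibre and one cycle, on the field of definition of
the zero loci of normal functions of cycles which are defined over `k₀`.

So for the existence of the filtration over the complex numbers, including the equality of `F^2` and
the kernel of the Abel–Jacobi map for all complex cycles, only the cycles which are defined over the
field of algebraic numbers, and the loci where their Abel–Jacobi invariants vanish, have to be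
considered. (Conjecturally the Abel–Jacobi maps are injective on the homologically trivial cycles
over the field of algebraic numbers; then there is a filtration over `k₀` with `F^2 = 0`.)

What is used of geometry is the hard Lefschetz theorem and what is contained in the definitions
`IsSpread`, `CanSpread` and `IsExtension`: resolution of singularities, the theorems of Deligne on
the Leray spectral sequence, on weights and on the semisimplicity of the monodromy, and the exactness
(up to isogeny) of the functor from Hodge structures to intermediate Jacobians.

The idea of the proof. As numerical and homological equivalence coincide over `k₀`, motives over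
`k₀` are semisimple (Jannsen, `Pool.Agent.H837.Jan`). Let `F` be the filtration over `k₀`, `δ` a
degree operator of `X`, `ε` its extension to `Y`, and `x` in `CH^j(X)` in the kernel of the
Abel–Jacobi map with `δ x = (2j - 1) x`. By 2 a product of operators `ε - (2j - a)` with `a ≥ 2` maps
the class of `y` to the part of the cohomology which comes from the boundary, on which there is an
algebraic projector; this gives a homologically trivial cycle `z` on `Y` which restricts to a nonzero
multiple of `x`. The Abel–Jacobi invariant of `z` comes from the step one of the Leray filtration of
`H^(2j-1)(Y)`, so that a product of operators `ε - (2j - 1 - a)` with `a ≥ 1` maps `z` to the kernel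
of the Abel–Jacobi map of `Y`, that is, to `F^2`, up to the boundary; and now the operators
`ε - (2j - r - a)` with `r ≥ 2` lead to `F^(j+1) = 0`. The factors of the restrictions to `X` of all
these operators are not zero at `x`, so `x` is zero. In the same way one sees that the eigenvalues of
degree operators on the homologically trivial classes in `CH^j(X)` are less than `2j`, and with the
Lefschetz conjecture (which follows, since numerical and homological equivalence coincide over `K`
as well) one gets Chow–Künneth decompositions which define the filtration. Conversely, `F^2` of a
Bloch–Beilinson filtration is annihilated by the product of the `δ - m`, `j ≤ m ≤ 2j - 2`, and the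
same product of operators `ε - m` is invertible on the step one modulo the step two of the Leray
filtration of `H^(2j)(Y)`.
-/

open Pool.Agent.H914 Pool.Agent.R903 Pool.Agent.T6.H15.BB Pool.Agent.H837.AJ

universe u v w u' v' w'

namespace Pool.Agent.Results.MP_08891c_ag.NormalFunctionCriterion

theorem result {k₀ : Type u} [Field k₀] {𝒱₀ : VarClass k₀} {C₀ : ChowTheory.{u, v} 𝒱₀}
    {W₀ : WeilTheory.{u, v, w} C₀} {N₀ : Kernels C₀} {K : Type u'} [Field K] {𝒱 : VarClass K}
    {C : ChowTheory.{u', v'} 𝒱} {W : WeilTheory.{u', v', w'} C} {N : Kernels C}
    (hN : IsAJKernel W N) (hL : ∀ X, HardLefschetz (ofVariety W N X) X.dim)
    (hS : CanSpread W₀ N₀ W N) (E : BaseExtension C₀ C) (hE : IsExtension W₀ N₀ W N E) :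
    ((∀ X, HomEqNum (ofVariety W N X)) ∧ ∃ F, IsBBAJ W N F) ↔
      (∀ X, HomEqNum (ofVariety W₀ N₀ X)) ∧ (∃ F₀, IsBBAJ W₀ N₀ F₀) ∧
        NormalFunctionCondition W₀ N₀ W N :=
  main hN hL hS hE

end Pool.Agent.Results.MP_08891c_ag.NormalFunctionCriterion
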